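import Mathlib
import Pool.Agent.H93.DeB1

set_option autoImplicit false

namespace Pool.Agent.Results.MP_060e4f_an.NotContinuous

open Complex Filter Topology MeasureTheory Pool.Agent.H93.DeB

/-- The open upper half-plane. -/
def UHP : Set ℂ := {z | 0 < z.im}

/-- The reflected function. -/
noncomputable def sharp (F : ℂ → ℂ) : ℂ → ℂ := fun z => (starRingEnd ℂ) (F ((starRingEnd ℂ) z))

/-- Holomorphic in the upper half-plane and a quotient of two bounded holomorphic functions. -/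
def BoundedType (f : ℂ → ℂ) : Prop :=
  DifferentiableOn ℂ f UHP ∧ ∃ g h : ℂ → ℂ, DifferentiableOn ℂ g UHP ∧ DifferentiableOn ℂ h UHP ∧
    (∃ M : ℝ, ∀ z ∈ UHP, ‖g z‖ ≤ M ∧ ‖h z‖ ≤ M) ∧ (∃ z ∈ UHP, h z ≠ 0) ∧
    ∀ z ∈ UHP, f z * h z = g z

/-- The mean type, an extended real number. -/
noncomputable def meanType (f : ℂ → ℂ) : EReal :=
  limsup (fun y : ℝ => ((y⁻¹ : ℝ) : EReal) * ENNReal.log ‖f (y * I)‖ₑ) atTop

/-- Membership in the de Branges space of E. -/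
def MemH (E F : ℂ → ℂ) : Prop :=
  Differentiable ℂ F ∧ Integrable (fun t : ℝ => ‖F t / E t‖ ^ 2) ∧
    BoundedType (fun z => F z / E z) ∧ meanType (fun z => F z / E z) ≤ 0 ∧
    BoundedType (fun z => sharp F z / E z) ∧ meanType (fun z => sharp F z / E z) ≤ 0

/-- The translation group acts continuously on the de Branges space of E. -/
def ActsContinuously (E : ℂ → ℂ) : Prop :=
  (∀ F, MemH E F → ∀ z : ℂ, MemH E (fun w => F (w + z))) ∧
    ∀ F, MemH E F → ∀ z₀ : ℂ, Tendsto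
      (fun z : ℂ => Real.sqrt (∫ t : ℝ, ‖(F (t + z) - F (t + z₀)) / E t‖ ^ 2)) (𝓝 z₀) (𝓝 0)

/-- The example. -/
noncomputable def E0 (z : ℂ) : ℂ := (z + I) * G z ^ 2

lemma one_le (z : ℂ) (hz : 0 ≤ z.im) : 1 ≤ ‖z + I‖ := by
  refine le_trans ?_ (im_le_norm _)
  simp only [add_im, I_im]; linarith

lemma E0_ne (z : ℂ) (hz : 0 ≤ z.im) : E0 z ≠ 0 :=
  mul_ne_zero (norm_pos_iff.mp (lt_of_lt_of_le one_pos (one_le z hz))) (pow_ne_zero _ (G_ne z hz))

lemma E0_diff : Differentiable ℂ E0 := by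
  have := G_diff
  unfold E0; fun_prop

lemma good (f : ℂ → ℂ) (hd : DifferentiableOn ℂ f UHP) (hb : ∀ z ∈ UHP, ‖f z‖ ≤ 1) :
    BoundedType f ∧ meanType f ≤ 0 := by
  refine ⟨⟨hd, f, fun _ => 1, hd, differentiableOn_const _, ⟨1, fun z hz => ⟨hb z hz, by simp⟩⟩,
    ⟨I, by simp [UHP], one_ne_zero⟩, fun z _ => mul_one _⟩, ?_⟩
  refine limsup_le_of_le (by isBoundedDefault) ?_
  filter_upwards [eventually_gt_atTop (0 : ℝ)] with y hy
  have h1 : ENNReal.log ‖f (y * I)‖ₑ ≤ 0 := by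
    rw [ENNReal.log_le_zero_iff, ← ofReal_norm, ENNReal.ofReal_le_one]
    exact hb _ (by simpa [UHP] using hy)
  exact EReal.mul_nonpos_iff.mpr (Or.inl ⟨by exact_mod_cast (inv_pos.mpr hy).le, h1⟩)

lemma quot (z : ℂ) (hz : 0 ≤ z.im) : G z ^ 2 / E0 z = (z + I)⁻¹ := by
  have h1 := G_ne z hz
  have h2 : z + I ≠ 0 := norm_pos_iff.mp (lt_of_lt_of_le one_pos (one_le z hz))
  unfold E0; field_simp

lemma mem : MemH E0 (fun z => G z ^ 2) := by
  have hG := G_diff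
  have hF : Differentiable ℂ (fun z => G z ^ 2) := by fun_prop
  have hS : Differentiable ℂ (sharp fun z => G z ^ 2) := fun z => by
    have := (hF ((starRingEnd ℂ) z)).conj_conj
    rw [conj_conj] at this
    exact this
  have g1 := good (fun z => G z ^ 2 / E0 z)
    (hF.differentiableOn.div E0_diff.differentiableOn fun z hz => E0_ne z (le_of_lt hz))
    (fun z hz => by
      rw [quot z (le_of_lt hz), norm_inv]
      exact inv_le_one_of_one_le₀ (one_le z (le_of_lt hz)))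
  have g2 := good (fun z => sharp (fun z => G z ^ 2) z / E0 z)
    (hS.differentiableOn.div E0_diff.differentiableOn fun z hz => E0_ne z (le_of_lt hz))
    (fun z hz => by
      have hz' : 0 ≤ z.im := le_of_lt hz
      rw [norm_div, div_le_one (norm_pos_iff.mpr (E0_ne z hz'))]
      simp only [sharp, E0, RCLike.norm_conj, norm_mul, norm_pow]
      have h1 := pow_le_pow_left₀ (norm_nonneg _) (G_conj z hz') 2
      have h2 := one_le z hz'
      nlinarith [sq_nonneg ‖G z‖])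
  refine ⟨hF, ?_, g1.1, g1.2, g2.1, g2.2⟩
  refine integrable_inv_one_add_sq.congr (Eventually.of_forall fun t => ?_)
  simp only
  rw [quot t (by simp), norm_inv, inv_pow, Complex.sq_norm, normSq_apply]
  simp only [add_re, ofReal_re, I_re, add_im, ofReal_im, I_im]
  congr 1; ring

lemma big (k : ℕ) (t : ℝ) (h1 : 8 ^ (k + 3) ≤ t) (h2 : t ≤ 8 ^ (k + 3) + 1) :
    1 ≤ ‖G (t + I) ^ 2 / E0 t‖ := by
  have h3 := G_up (k + 3) t h1 h2
  have hp : 0 < ‖G t‖ := norm_pos_iff.mpr (G_ne t (by simp))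
  rw [norm_div, le_div_iff₀ (norm_pos_iff.mpr (E0_ne t (by simp))), one_mul]
  simp only [E0, norm_mul, norm_pow]
  have h4 : ‖(t : ℂ) + I‖ ≤ 8 ^ (k + 3) + 2 := by
    refine (norm_add_le _ _).trans ?_
    have : (0 : ℝ) ≤ 8 ^ (k + 3) := by positivity
    rw [norm_I, Complex.norm_real, Real.norm_eq_abs, abs_of_nonneg (by linarith)]
    linarith
  have h5 := pow_le_pow_left₀ hp.le h3 2
  have h6 : ((8 : ℝ) ^ (k + 3) + 2) * (2 / 4 ^ (k + 3)) ^ 2 ≤ 1 := by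
    have e : ((4 : ℝ) ^ (k + 3)) ^ 2 = 8 ^ k * 2 ^ k * 4096 := by
      rw [← mul_pow, ← pow_mul, mul_comm (k + 3), pow_mul, pow_add]; norm_num
    have a1 : (1 : ℝ) ≤ 8 ^ k := one_le_pow₀ (by norm_num)
    have a2 : (1 : ℝ) ≤ 2 ^ k := one_le_pow₀ (by norm_num)
    rw [div_pow, e, ← mul_div_assoc, div_le_one (by positivity), pow_add]
    nlinarith
  calc ‖(t : ℂ) + I‖ * ‖G t‖ ^ 2
      ≤ (8 ^ (k + 3) + 2) * (2 / 4 ^ (k + 3) * ‖G (t + I)‖) ^ 2 :=
        mul_le_mul h4 h5 (by positivity) (by positivity)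
    _ = ((8 ^ (k + 3) + 2) * (2 / 4 ^ (k + 3)) ^ 2) * ‖G (t + I)‖ ^ 2 := by ring
    _ ≤ 1 * ‖G (t + I)‖ ^ 2 := mul_le_mul_of_nonneg_right h6 (by positivity)
    _ = _ := one_mul _

lemma not_int : ¬ Integrable (fun t : ℝ => ‖G (t + I) ^ 2 / E0 t‖ ^ 2) := by
  intro h
  have h1 := h.measure_norm_ge_lt_top one_pos
  have h2 : (⋃ k : ℕ, Set.Icc ((8 : ℝ) ^ (k + 3)) (8 ^ (k + 3) + 1)) ⊆
      {t : ℝ | 1 ≤ ‖‖G (t + I) ^ 2 / E0 t‖ ^ 2‖} := by
    intro t ht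
    obtain ⟨k, hk⟩ := Set.mem_iUnion.mp ht
    have := big k t hk.1 hk.2
    simp only [Set.mem_ofPred_eq, norm_pow, norm_norm]
    nlinarith
  have h3 := lt_of_le_of_lt (measure_mono h2) h1
  rw [measure_iUnion _ (fun k => measurableSet_Icc)] at h3
  · simp at h3
  · refine (pairwise_disjoint_on _).mpr fun m n hmn => ?_
    rw [Set.disjoint_left]
    intro t ht1 ht2
    have a1 : (8 : ℝ) ^ (m + 3 + 1) ≤ 8 ^ (n + 3) := pow_le_pow_right₀ (by norm_num) (by omega)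
    have a2 : (1 : ℝ) ≤ 8 ^ (m + 3) := one_le_pow₀ (by norm_num)
    rw [pow_succ] at a1
    linarith [ht1.2, ht2.1]

theorem result : ∃ E : ℂ → ℂ, Differentiable ℂ E ∧
    (∀ z : ℂ, 0 < z.im → ‖E ((starRingEnd ℂ) z)‖ < ‖E z‖) ∧
    (∃ A B : ℝ, ∀ z, ‖E z‖ ≤ A * Real.exp (B * ‖z‖)) ∧
    (∀ t : ℝ, E t ≠ 0) ∧
    (∀ x : ℝ, ∃ M : ℝ, ∀ t : ℝ, ‖E (t + x) / E t‖ ≤ M) ∧
    (∃ F, MemH E F ∧ ¬ MemH E (fun w => F (w + I))) ∧
    ¬ ActsContinuously E := by
  have hn : ¬ MemH E0 (fun w => (fun z => G z ^ 2) (w + I)) := fun h => not_int h.2.1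
  refine ⟨E0, E0_diff, fun z hz => ?_, ?_, fun t => E0_ne t (by simp), fun x => ?_,
    ⟨_, mem, hn⟩, fun h => hn (h.1 _ mem I)⟩
  · simp only [E0, norm_mul, norm_pow]
    have h1 := pow_le_pow_left₀ (norm_nonneg _) (G_conj z hz.le) 2
    have hp : 0 < ‖G z‖ := norm_pos_iff.mpr (G_ne z hz.le)
    have h2 : ‖(starRingEnd ℂ) z + I‖ < ‖z + I‖ := by
      rw [← sq_lt_sq₀ (norm_nonneg _) (norm_nonneg _), Complex.sq_norm, Complex.sq_norm,
        normSq_apply, normSq_apply]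
      simp only [add_re, add_im, conj_re, conj_im, I_re, I_im]
      nlinarith
    calc _ ≤ ‖(starRingEnd ℂ) z + I‖ * ‖G z‖ ^ 2 := mul_le_mul_of_nonneg_left h1 (norm_nonneg _)
      _ < _ := mul_lt_mul_of_pos_right h2 (by positivity)
  · obtain ⟨B, hB⟩ := G_exp
    refine ⟨1, 1 + 2 * B, fun z => ?_⟩
    simp only [E0, norm_mul, norm_pow]
    have h1 := pow_le_pow_left₀ (norm_nonneg _) (hB z) 2
    have h2 : ‖z + I‖ ≤ Real.exp ‖z‖ := by
      refine (norm_add_le _ _).trans ?_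
      rw [norm_I]; exact Real.add_one_le_exp _
    calc _ ≤ Real.exp ‖z‖ * Real.exp (B * ‖z‖) ^ 2 :=
          mul_le_mul h2 h1 (by positivity) (by positivity)
      _ = _ := by rw [← Real.exp_nat_mul, ← Real.exp_add, one_mul]; congr 1; push_cast; ring
  · refine ⟨(1 + |x|) * Real.exp ((2 * |x| + x ^ 2) * 16) ^ 2, fun t => ?_⟩
    rw [norm_div, div_le_iff₀ (norm_pos_iff.mpr (E0_ne t (by simp)))]
    simp only [E0, norm_mul, norm_pow]
    have h1 := pow_le_pow_left₀ (norm_nonneg _) (G_shift x t) 2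
    have h2 : ‖(t : ℂ) + x + I‖ ≤ (1 + |x|) * ‖(t : ℂ) + I‖ := by
      have a1 := one_le (t : ℂ) (by simp)
      have a2 : ‖(t : ℂ) + x + I‖ ≤ ‖(t : ℂ) + I‖ + |x| := by
        rw [add_right_comm]
        refine (norm_add_le _ _).trans ?_
        rw [Complex.norm_real, Real.norm_eq_abs]
      nlinarith [abs_nonneg x]
    calc _ ≤ ((1 + |x|) * ‖(t : ℂ) + I‖) * (Real.exp ((2 * |x| + x ^ 2) * 16) * ‖G t‖) ^ 2 :=
          mul_le_mul h2 h1 (by positivity) (by positivity)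
      _ = _ := by ring

end Pool.Agent.Results.MP_060e4f_an.NotContinuous
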